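import Mathlib
import Pool.Agent.Helper35.AG.ErgLeb

/-!
# The measure of an extreme trace is extreme
-/

set_option autoImplicit false

open MeasureTheory Filter Topology Finset Helper17.FU Helper17.FUGroup Helper35.AG
open Helper91.TTT (GG)
open Helper58.FH (Bx continuous_Bx)
open scoped ENNReal ComplexConjugate

namespace Helper25.CG

/-- Fourier coefficients of an invariant measure -/
theorem ft_inv {μ : Measure Tor} (hi : Inv μ) (n : ℤ) (a b : ℕ) :
    ∫ x, (fourier (n * (2 ^ a * 3 ^ b)) x : ℂ) ∂μ = ∫ x, (fourier n x : ℂ) ∂μ := by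
  have step : ∀ (N : ℕ), MeasurePreserving (fun x : Tor => N • x) μ μ → ∀ m : ℤ,
      ∫ x, (fourier (m * N) x : ℂ) ∂μ = ∫ x, (fourier m x : ℂ) ∂μ := by
    intro N hN m
    have hc : AEStronglyMeasurable (fun x : Tor => (fourier m x : ℂ)) μ :=
      (fourier m).continuous.aestronglyMeasurable
    have h1 : ∫ x, (fourier m x : ℂ) ∂μ = ∫ x, (fourier m (N • x) : ℂ) ∂μ := by
      have h2 := integral_map (μ := μ) (φ := fun x : Tor => N • x) hN.measurable.aemeasurable
        (f := fun x : Tor => (fourier m x : ℂ)) (by rw [hN.map_eq]; exact hc)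
      rw [hN.map_eq] at h2
      exact h2
    rw [h1]
    refine integral_congr_ae (Eventually.of_forall fun x => ?_)
    simp only
    rw [fourier_apply, fourier_apply, mul_zsmul, natCast_zsmul]
  induction a with
  | zero =>
    induction b with
    | zero => simp
    | succ b ih =>
      rw [← ih, ← step 3 hi.three (n * (2 ^ 0 * 3 ^ b))]
      congr 1
      ext x
      congr 2
      push_cast
      ring
  | succ a ih =>
    rw [← ih, ← step 2 hi.two (n * (2 ^ a * 3 ^ b))]
    congr 1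
    ext x
    congr 2
    push_cast
    ring

/-- an invariant probability measure dominated by a multiple of an ergodic one has the same
Fourier coefficients -/
theorem ft_eq_of_le {μ μ' : Measure Tor} [IsProbabilityMeasure μ] [IsProbabilityMeasure μ']
    (hi : Inv μ) (hi' : Inv μ') (hE : Helper58.FX.Erg (Helper58.FX.ft μ)) {c : ℝ≥0∞} (hc : c ≠ ⊤)
    (hle : μ' ≤ c • μ) (k : ℕ) :
    ∫ x, (fourier (k : ℤ) x : ℂ) ∂μ' = ∫ x, (fourier (k : ℤ) x : ℂ) ∂μ := by
  have hc0 : Helper58.FX.ft μ k = ∫ x, (fourier (k : ℤ) x : ℂ) ∂μ := rfl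
  rw [← hc0]
  set e := Helper58.FX.ft μ k with he
  set e' := ∫ x, (fourier (k : ℤ) x : ℂ) ∂μ' with he'
  have hint : ∀ ρ : Measure Tor, IsFiniteMeasure ρ → ∀ f : Tor → ℝ, Continuous f →
      Integrable f ρ := fun ρ _ f hf => hf.integrable_of_hasCompactSupport
        (HasCompactSupport.of_compactSpace _)
  have hintc : ∀ ρ : Measure Tor, IsFiniteMeasure ρ → ∀ f : Tor → ℂ, Continuous f →
      Integrable f ρ := fun ρ _ f hf => hf.integrable_of_hasCompactSupport
        (HasCompactSupport.of_compactSpace _)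
  have key : ∀ η : ℝ, 0 < η → ‖e' - e‖ ^ 2 ≤ c.toReal * η := by
    intro η hη
    obtain ⟨K, hK⟩ := Pool.Agent.Helper40.TMA.box_averages (μ := μ) hi.two hi.three hE k η hη
    have h1 := hK (K + 1) (K + 1) (by omega) (by omega)
    set B : Tor → ℂ := Bx k (K + 1) (K + 1) with hB
    have hBc : Continuous B := continuous_Bx _ _ _
    have h2 : ∫ x, ‖B x - e‖ ^ 2 ∂μ' ≤ c.toReal * ∫ x, ‖B x - e‖ ^ 2 ∂μ := by
      have hfin : IsFiniteMeasure (c • μ) := ⟨by
        rw [Measure.smul_apply, measure_univ, smul_eq_mul, mul_one]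
        exact lt_top_iff_ne_top.2 hc⟩
      have h3 := integral_mono_measure (μ := μ') (ν := c • μ)
        (f := fun x => ‖B x - e‖ ^ 2) hle (Eventually.of_forall fun x => by positivity)
        (hint _ hfin _ ((hBc.sub continuous_const).norm.pow 2))
      rw [integral_smul_measure, smul_eq_mul] at h3
      exact h3
    have h4 : ∫ x, B x ∂μ' = e' := by
      have eB : ∀ x, B x = (((K + 1 : ℕ) : ℂ) * ((K + 1 : ℕ) : ℂ))⁻¹ *
          ∑ s ∈ range (K + 1) ×ˢ range (K + 1),
            (fourier ((k : ℤ) * (2 ^ s.1 * 3 ^ s.2)) x : ℂ) := fun x => rfl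
      simp only [eB]
      rw [integral_const_mul, integral_finsetSum _ fun s _ =>
        hintc _ inferInstance _ (fourier _).continuous]
      rw [Finset.sum_congr rfl fun s _ => ft_inv hi' (k : ℤ) s.1 s.2]
      rw [Finset.sum_const, card_product, card_range, nsmul_eq_mul, ← he', ← mul_assoc]
      have hne : ((K + 1 : ℕ) : ℂ) ≠ 0 := by exact_mod_cast Nat.succ_ne_zero K
      rw [Nat.cast_mul, inv_mul_cancel₀ (mul_ne_zero hne hne), one_mul]
    have h5 : ‖e' - e‖ ^ 2 ≤ ∫ x, ‖B x - e‖ ^ 2 ∂μ' := by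
      have h6 : e' - e = ∫ x, (B x - e) ∂μ' := by
        rw [integral_sub (hintc _ inferInstance _ hBc) (integrable_const _), h4]
        simp
      rw [h6]
      have h7 : ‖∫ x, (B x - e) ∂μ'‖ ≤ ∫ x, ‖B x - e‖ ∂μ' := norm_integral_le_integral_norm _
      set g : Tor → ℝ := fun x => ‖B x - e‖ with hg
      have hgc : Continuous g := (hBc.sub continuous_const).norm
      set J := ∫ x, g x ∂μ' with hJ
      have hJ0 : 0 ≤ J := integral_nonneg fun x => norm_nonneg _
      have h8 : J ^ 2 ≤ ∫ x, g x ^ 2 ∂μ' := by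
        have h9 : 0 ≤ ∫ x, (g x - J) ^ 2 ∂μ' := integral_nonneg fun x => by positivity
        have h10 : ∫ x, (g x - J) ^ 2 ∂μ' = ∫ x, g x ^ 2 ∂μ' - J ^ 2 := by
          have h11 : ∀ x, (g x - J) ^ 2 = g x ^ 2 - (2 * J) * g x + J ^ 2 := fun x => by ring
          have i1 : Integrable (fun x => g x ^ 2) μ' := hint _ inferInstance _ (hgc.pow 2)
          have i2 : Integrable (fun x => (2 * J) * g x) μ' :=
            hint _ inferInstance _ (continuous_const.mul hgc)
          have i3 : Integrable (fun x => g x ^ 2 - (2 * J) * g x) μ' := i1.sub i2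
          simp only [h11]
          rw [integral_add i3 (integrable_const _), integral_sub i1 i2, integral_const_mul, ← hJ]
          simp
          ring
        linarith
      calc ‖∫ x, (B x - e) ∂μ'‖ ^ 2 ≤ J ^ 2 := by
            gcongr
        _ ≤ _ := h8
    calc ‖e' - e‖ ^ 2 ≤ ∫ x, ‖B x - e‖ ^ 2 ∂μ' := h5
      _ ≤ c.toReal * ∫ x, ‖B x - e‖ ^ 2 ∂μ := h2
      _ ≤ c.toReal * η := by
        gcongr
  have h0 : ‖e' - e‖ ^ 2 ≤ 0 := by
    by_contra hcon
    push Not at hcon
    have hc1 : 0 ≤ c.toReal := ENNReal.toReal_nonneg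
    have h1 := key (‖e' - e‖ ^ 2 / (2 * (c.toReal + 1))) (by positivity)
    have h2 : c.toReal * (‖e' - e‖ ^ 2 / (2 * (c.toReal + 1))) ≤ ‖e' - e‖ ^ 2 / 2 := by
      rw [mul_div_assoc', div_le_div_iff₀ (by positivity) (by norm_num)]
      nlinarith
    linarith
  have h1 : ‖e' - e‖ = 0 := by
    have h2 : ‖e' - e‖ ^ 2 = 0 := le_antisymm h0 (by positivity)
    exact pow_eq_zero_iff (two_ne_zero) |>.1 h2
  exact sub_eq_zero.1 (norm_eq_zero.1 h1)

/-- an invariant probability measure dominated by a multiple of an ergodic one is equal to it -/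
theorem eq_of_le {μ μ' : Measure Tor} [IsProbabilityMeasure μ] [IsProbabilityMeasure μ']
    (hi : Inv μ) (hi' : Inv μ') (hE : Helper58.FX.Erg (Helper58.FX.ft μ)) {c : ℝ≥0∞} (hc : c ≠ ⊤)
    (hle : μ' ≤ c • μ) : μ' = μ := by
  have h := ft_eq_of_le hi hi' hE hc hle
  apply Helper17.TranslM.eq_of_fourier
  intro m
  rcases le_or_gt 0 m with hm | hm
  · have h1 := h m.toNat
    rwa [Int.toNat_of_nonneg hm] at h1
  · have h1 := h (-m).toNat
    rw [Int.toNat_of_nonneg (by omega : 0 ≤ -m)] at h1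
    have hconj : ∀ ρ : Measure Tor, ∫ x, (fourier m x : ℂ) ∂ρ =
        conj (∫ x, (fourier (-m) x : ℂ) ∂ρ) := by
      intro ρ
      rw [← integral_conj]
      refine integral_congr_ae (Eventually.of_forall fun x => ?_)
      simp only
      rw [fourier_neg, Complex.conj_conj]
    rw [hconj, hconj, h1]

variable {s2 s3 t : Equiv.Perm ℚ}

/-- **F4**: the measure of an extreme trace is extreme. -/
theorem ext_of_extreme (h2 : ∀ x : ℚ, s2 x = 2 * x) (h3 : ∀ x : ℚ, s3 x = 3 * x)
    (ht : ∀ x : ℚ, t x = x + 1) {τ : GG s2 s3 t} (hτ : (τ : Equiv.Perm ℚ) = t)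
    {φ : GG s2 s3 t → ℂ} (hφ : φ ∈ Set.extremePoints ℝ (TR (GG s2 s3 t)))
    {μ : Measure Tor} [IsProbabilityMeasure μ]
    (hμ : ∀ n : ℤ, ∫ x, (fourier n x : ℂ) ∂μ = φ (τ ^ n))
    (μ' : Measure Tor) (c : ℝ≥0∞) (h1 : IsProbabilityMeasure μ') (hi : Inv μ') (hc : c ≠ ⊤)
    (hle : μ' ≤ c • μ) : μ' = μ :=
  eq_of_le (inv_of_trace h2 h3 ht hτ hφ.1 hμ) hi
    (Pool.Agent.Helper40.TMA.erg_of_extreme h2 h3 ht hτ hφ hμ) hc hle

end Helper25.CG
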